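import Pool.Agent.Helper32.KD2.Basic
import Pool.Agent.Helper32.KD2.St.A1
import Pool.Agent.Helper32.KD2.St.C1
/-! KD2-D1: replacing `f(v+w)` by `f(v+rtr h w)` (II.3 (iii)).  Uses A1, C1. -/
namespace KD.II.D1
open Finset MeasureTheory

theorem rtr_neg {d : ℕ} (h : ℝ) (w : Vd d) : rtr h (-w) = -rtr h w := by
  funext i
  simp only [rtr, Pi.neg_apply, neg_div, trz_neg, Int.cast_neg, mul_neg]

theorem rtr_meas {d : ℕ} (h : ℝ) : Measurable (rtr h : Vd d → Vd d) := by
  refine measurable_pi_iff.2 fun i => ?_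
  have h0 : Measurable (fun w : Vd d => w i / h) := by fun_prop
  have h1 : Measurable (fun w : Vd d => trz (w i / h)) := trz_measurable.comp h0
  have h2 : Measurable (fun w : Vd d => ((trz (w i / h) : ℤ) : ℝ)) :=
    (measurable_from_top (f := fun z : ℤ => (z : ℝ))).comp h1
  exact h2.const_mul h

theorem norm_rtr_le {d : ℕ} {h : ℝ} (hh : 0 < h) (w : Vd d) : ‖rtr h w‖ ≤ ‖w‖ := by
  refine (pi_norm_le_iff_of_nonneg (norm_nonneg _)).2 fun i => ?_
  have h1 := abs_trz_le (w i / h)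
  have h2 : ‖rtr h w i‖ = h * |((trz (w i / h) : ℤ) : ℝ)| := by
    simp only [rtr, norm_mul, Real.norm_eq_abs, abs_of_pos hh]
  have h3 : h * |w i / h| = |w i| := by
    rw [abs_div, abs_of_pos hh]; field_simp
  calc ‖rtr h w i‖ = h * |((trz (w i / h) : ℤ) : ℝ)| := h2
    _ ≤ h * |w i / h| := by gcongr
    _ = |w i| := h3
    _ ≤ ‖w‖ := norm_le_pi_norm w i

theorem sub_rtr_coord {d : ℕ} {h : ℝ} (hh : 0 < h) (w : Vd d) (i : Fin d) :
    ‖(w - rtr h w) i‖ = h * |w i / h - ((trz (w i / h) : ℤ) : ℝ)| := by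
  have : (w - rtr h w) i = h * (w i / h - ((trz (w i / h) : ℤ) : ℝ)) := by
    simp only [rtr, Pi.sub_apply]
    field_simp
  rw [this, norm_mul, Real.norm_eq_abs, Real.norm_eq_abs, abs_of_pos hh]

theorem norm_sub_rtr_le_h {d : ℕ} {h : ℝ} (hh : 0 < h) (w : Vd d) : ‖w - rtr h w‖ ≤ h := by
  refine (pi_norm_le_iff_of_nonneg hh.le).2 fun i => ?_
  rw [sub_rtr_coord hh]
  have h1 := (abs_sub_trz_lt (w i / h)).le
  nlinarith

theorem norm_sub_rtr_le {d : ℕ} {h : ℝ} (hh : 0 < h) (w : Vd d) : ‖w - rtr h w‖ ≤ ‖w‖ := by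
  refine (pi_norm_le_iff_of_nonneg (norm_nonneg _)).2 fun i => ?_
  rw [sub_rtr_coord hh]
  have h1 := abs_sub_trz_le (w i / h)
  have h3 : h * |w i / h| = |w i| := by
    rw [abs_div, abs_of_pos hh]; field_simp
  calc h * |w i / h - ((trz (w i / h) : ℤ) : ℝ)| ≤ h * |w i / h| := by gcongr
    _ = |w i| := h3
    _ ≤ ‖w‖ := norm_le_pi_norm w i

theorem norm_sub_rtr_interp {d : ℕ} {h s : ℝ} (hs : 0 < s) (hs1 : s < 1) (hh : 0 < h)
    (w : Vd d) : ‖w - rtr h w‖ ≤ h ^ (1 - s) * ‖w‖ ^ s := by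
  have h0 : 0 ≤ ‖w - rtr h w‖ := norm_nonneg _
  calc ‖w - rtr h w‖ = ‖w - rtr h w‖ ^ ((1 - s) + s) := by
        rw [sub_add_cancel, Real.rpow_one]
    _ = ‖w - rtr h w‖ ^ (1 - s) * ‖w - rtr h w‖ ^ s :=
        Real.rpow_add_of_nonneg h0 (by linarith) hs.le
    _ ≤ h ^ (1 - s) * ‖w‖ ^ s :=
        mul_le_mul
          (Real.rpow_le_rpow h0 (norm_sub_rtr_le_h hh w) (by linarith))
          (Real.rpow_le_rpow h0 (norm_sub_rtr_le hh w) hs.le)
          (Real.rpow_nonneg h0 _) (Real.rpow_nonneg hh.le _)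

theorem ann_neg {d : ℕ} (h ρ : ℝ) (w : Vd d) : -w ∈ ann d h ρ ↔ w ∈ ann d h ρ := by
  simp [ann, norm_neg]

theorem ann_sub_bal {d : ℕ} (h ρ : ℝ) : ann d h ρ ⊆ bal d ρ := fun _ hw => hw.2

theorem ann_vol {d : ℕ} (h ρ : ℝ) : volume (ann d h ρ) < ⊤ := by
  refine lt_of_le_of_lt (measure_mono ?_) (measure_ball_lt_top (x := (0 : Vd d)) (r := ρ))
  intro w hw
  simpa [mem_ball_zero_iff] using hw.2

theorem kw_le {d : ℕ} {s h ρ : ℝ} (hs : 0 < s) (hh : 0 < h) (w : Vd d) (hw : w ∈ ann d h ρ) :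
    kw d s w ≤ h ^ (-((d : ℝ) + 2 * s)) := by
  unfold kw
  exact Real.rpow_le_rpow_of_nonpos hh hw.1 (by
    have : (0 : ℝ) ≤ (d : ℝ) := Nat.cast_nonneg d
    linarith)

/-- bounded measurable times `kw` is integrable on the annulus -/
theorem int_ann {d : ℕ} {s h ρ : ℝ} (hs : 0 < s) (hh : 0 < h) (g : Vd d → ℝ) (hg : Measurable g)
    (M : ℝ) (hM : ∀ w, |g w| ≤ M) : IntegrableOn (fun w => g w * kw d s w) (ann d h ρ) := by
  have hM0 : 0 ≤ M := (abs_nonneg _).trans (hM 0)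
  refine Measure.integrableOn_of_bounded (M := M * h ^ (-((d : ℝ) + 2 * s)))
    (ann_vol h ρ).ne (hg.mul kw_meas).aestronglyMeasurable ?_
  refine (ae_restrict_iff' (ann_meas h ρ)).2 (Filter.Eventually.of_forall fun w hw => ?_)
  rw [norm_mul, Real.norm_eq_abs, Real.norm_of_nonneg (kw_nonneg w)]
  exact mul_le_mul (hM w) (kw_le hs hh w hw) (kw_nonneg w) hM0

theorem setint_neg {d : ℕ} (h ρ : ℝ) (g : Vd d → ℝ) :
    ∫ w in ann d h ρ, g (-w) = ∫ w in ann d h ρ, g w := by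
  rw [← integral_indicator (ann_meas h ρ), ← integral_indicator (ann_meas h ρ)]
  rw [← integral_neg_eq_self (fun w => (ann d h ρ).indicator g w) volume]
  refine integral_congr_ae (Filter.Eventually.of_forall fun w => ?_)
  have hn := ann_neg h ρ w
  by_cases hw : w ∈ ann d h ρ
  · have hw' := hn.2 hw
    simp only [Set.indicator, if_pos hw, if_pos hw']
  · have hw' : -w ∉ ann d h ρ := fun hc => hw (hn.1 hc)
    simp only [Set.indicator, if_neg hw, if_neg hw']

theorem sym_err (d : ℕ) (hd : 1 ≤ d) (s lam Lam : ℝ) (hs : 0 < s) (hs1 : s < 1) (hlam : 0 < lam)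
    (hLam : lam ≤ Lam) :
    ∃ C : ℝ, 0 ≤ C ∧ ∀ (η Cf : ℝ) (a : ℝ → Vd d → Vd d → Vd d → ℝ) (f G : ℝ → Vd d → Vd d → ℝ)
      (_ : Loc s η a f G Cf) (b : Vd d → ℝ) (_ : Adm lam Lam b) (t : ℝ) (x v : Vd d) (h ρ : ℝ),
      -1 ≤ t → t ≤ 0 → ‖x‖ ≤ 1 → 0 < h → ‖v‖ + ρ ≤ 1 →
      |(∫ w in ann d h ρ, b w * (f t x (v + rtr h w) - f t x v) * kw d s w) -
        (1 / 2) * ∫ w in ann d h ρ, (f t x (v + w) + f t x (v - w) - 2 * f t x v) * b w *
          kw d s w| ≤ C * Cf * h ^ (1 - s) := by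
  have hLam0 : 0 < Lam := lt_of_lt_of_le hlam hLam
  set I0 : ℝ := ∫ w in bal d 1, ‖w‖ ^ (1 + s) * kw d s w with hI0
  have hI0nn : 0 ≤ I0 :=
    setIntegral_nonneg (bal_meas 1) fun w _ =>
      mul_nonneg (Real.rpow_nonneg (norm_nonneg _) _) (kw_nonneg w)
  refine ⟨1 / 2 * Lam * I0, by positivity, ?_⟩
  intro η Cf a f G L b B t x v h ρ ht0 ht1 hx hh hv
  have hCf := L.Cf0
  have hρ1 : ρ ≤ 1 := by linarith [norm_nonneg v]
  have hb : ∀ w, |b w| ≤ Lam := fun w => by
    rw [abs_of_pos (lt_of_lt_of_le hlam (B.lo w))]; exact B.hi w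
  have hfm : Measurable (f t x) := L.meas t x
  have hf : ∀ u, |f t x u| ≤ Cf := fun u => L.bdd t x u
  have hrm := rtr_meas (d := d) h
  have hbm := B.meas
  have i1 : IntegrableOn (fun w => b w * (f t x (v + rtr h w) - f t x v) * kw d s w)
      (ann d h ρ) := by
    refine int_ann hs hh (fun w => b w * (f t x (v + rtr h w) - f t x v)) ?_ (Lam * (2 * Cf)) ?_
    · exact hbm.mul ((hfm.comp (measurable_const.add hrm)).sub measurable_const)
    · intro w
      rw [abs_mul]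
      refine mul_le_mul (hb w) ?_ (abs_nonneg _) hLam0.le
      have := abs_sub (f t x (v + rtr h w)) (f t x v)
      linarith [hf (v + rtr h w), hf v]
  have i2 : IntegrableOn (fun w => b w * (f t x (v - rtr h w) - f t x v) * kw d s w)
      (ann d h ρ) := by
    refine int_ann hs hh (fun w => b w * (f t x (v - rtr h w) - f t x v)) ?_ (Lam * (2 * Cf)) ?_
    · exact hbm.mul ((hfm.comp (measurable_const.sub hrm)).sub measurable_const)
    · intro w
      rw [abs_mul]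
      refine mul_le_mul (hb w) ?_ (abs_nonneg _) hLam0.le
      have := abs_sub (f t x (v - rtr h w)) (f t x v)
      linarith [hf (v - rtr h w), hf v]
  have i3 : IntegrableOn (fun w => (f t x (v + w) + f t x (v - w) - 2 * f t x v) * b w *
      kw d s w) (ann d h ρ) := by
    refine int_ann hs hh (fun w => (f t x (v + w) + f t x (v - w) - 2 * f t x v) * b w) ?_
      ((4 * Cf) * Lam) ?_
    · exact (((hfm.comp (measurable_const.add measurable_id)).add
        (hfm.comp (measurable_const.sub measurable_id))).sub measurable_const).mul hbm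
    · intro w
      rw [abs_mul]
      refine mul_le_mul ?_ (hb w) (abs_nonneg _) (by linarith)
      have a1 := abs_le.1 (hf (v + w))
      have a2 := abs_le.1 (hf (v - w))
      have a3 := abs_le.1 (hf v)
      exact abs_le.2 ⟨by linarith [a1.1, a2.1, a3.2], by linarith [a1.2, a2.2, a3.1]⟩
  have hsym : ∫ w in ann d h ρ, b w * (f t x (v - rtr h w) - f t x v) * kw d s w =
      ∫ w in ann d h ρ, b w * (f t x (v + rtr h w) - f t x v) * kw d s w := by
    rw [← setint_neg h ρ (fun w => b w * (f t x (v + rtr h w) - f t x v) * kw d s w)]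
    refine integral_congr_ae (Filter.Eventually.of_forall fun w => ?_)
    simp only [rtr_neg, B.even, kw_neg, ← sub_eq_add_neg]
  have key : (∫ w in ann d h ρ, b w * (f t x (v + rtr h w) - f t x v) * kw d s w) -
        (1 / 2) * ∫ w in ann d h ρ, (f t x (v + w) + f t x (v - w) - 2 * f t x v) * b w *
          kw d s w =
      ∫ w in ann d h ρ, (1 / 2) * (b w * ((f t x (v + rtr h w) + f t x (v - rtr h w)) -
        (f t x (v + w) + f t x (v - w))) * kw d s w) := by
    have e1 : ∫ w in ann d h ρ, (1 / 2) * (b w * ((f t x (v + rtr h w) + f t x (v - rtr h w)) -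
        (f t x (v + w) + f t x (v - w))) * kw d s w) =
        ∫ w in ann d h ρ, ((1 / 2) * ((b w * (f t x (v + rtr h w) - f t x v) * kw d s w) +
          (b w * (f t x (v - rtr h w) - f t x v) * kw d s w)) -
          (1 / 2) * ((f t x (v + w) + f t x (v - w) - 2 * f t x v) * b w * kw d s w)) := by
      refine integral_congr_ae (Filter.Eventually.of_forall fun w => ?_)
      simp only
      ring
    have e2 := integral_sub (μ := volume.restrict (ann d h ρ)) ((i1.add i2).const_mul (1 / 2))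
      (i3.const_mul (1 / 2))
    have e3 := integral_add (μ := volume.restrict (ann d h ρ)) i1 i2
    simp only [Pi.add_apply] at e2
    rw [e1]
    refine Eq.trans ?_ e2.symm
    rw [integral_const_mul, integral_const_mul, e3, hsym]
    ring
  rw [key]
  have hmid := mid_integrable d hd s hs hs1
  have hsub : ann d h ρ ⊆ bal d 1 := fun w hw => lt_of_lt_of_le hw.2 hρ1
  have hmid' : IntegrableOn (fun w : Vd d => ‖w‖ ^ (1 + s) * kw d s w) (ann d h ρ) :=
    hmid.mono_set hsub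
  have hle : ∫ w in ann d h ρ, ‖w‖ ^ (1 + s) * kw d s w ≤ I0 := by
    refine setIntegral_mono_set hmid ?_ hsub.eventuallyLE
    exact Filter.Eventually.of_forall fun w =>
      mul_nonneg (Real.rpow_nonneg (norm_nonneg _) _) (kw_nonneg w)
  have hpt : ∀ w ∈ ann d h ρ, ‖(1 / 2) * (b w * ((f t x (v + rtr h w) + f t x (v - rtr h w)) -
        (f t x (v + w) + f t x (v - w))) * kw d s w)‖ ≤
      (1 / 2 * Lam * Cf * h ^ (1 - s)) * (‖w‖ ^ (1 + s) * kw d s w) := by
    intro w hw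
    have hvw : ‖v‖ + ‖w‖ ≤ 1 := by linarith [hw.2]
    have h1 := L.sd t x v w (rtr h w) ht0 ht1 hx hvw (norm_rtr_le hh w)
    have h2 := norm_sub_rtr_interp hs hs1 hh w
    have h3 : ‖w‖ ^ (1 + s) = ‖w‖ * ‖w‖ ^ s := by
      rw [Real.rpow_add_of_nonneg (norm_nonneg _) zero_le_one hs.le, Real.rpow_one]
    have hk := kw_nonneg (s := s) w
    have h4 : |(f t x (v + rtr h w) + f t x (v - rtr h w)) - (f t x (v + w) + f t x (v - w))| ≤
        Cf * (h ^ (1 - s) * ‖w‖ ^ s) * ‖w‖ := by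
      refine h1.trans ?_
      gcongr
    rw [norm_mul, norm_mul, norm_mul, Real.norm_eq_abs (b w), Real.norm_eq_abs (_ - _),
      Real.norm_of_nonneg hk, Real.norm_of_nonneg (by norm_num : (0 : ℝ) ≤ 1 / 2)]
    calc (1 / 2) * (|b w| * |(f t x (v + rtr h w) + f t x (v - rtr h w)) -
          (f t x (v + w) + f t x (v - w))| * kw d s w)
        ≤ (1 / 2) * (Lam * (Cf * (h ^ (1 - s) * ‖w‖ ^ s) * ‖w‖) * kw d s w) := by
          gcongr
          exact hb w
      _ = (1 / 2 * Lam * Cf * h ^ (1 - s)) * (‖w‖ ^ (1 + s) * kw d s w) := by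
          rw [h3]; ring
  have hfin : ‖∫ w in ann d h ρ, (1 / 2) * (b w * ((f t x (v + rtr h w) +
        f t x (v - rtr h w)) - (f t x (v + w) + f t x (v - w))) * kw d s w)‖ ≤
      ∫ w in ann d h ρ, (1 / 2 * Lam * Cf * h ^ (1 - s)) * (‖w‖ ^ (1 + s) * kw d s w) :=
    norm_integral_le_of_norm_le (hmid'.const_mul _)
      ((ae_restrict_iff' (ann_meas h ρ)).2 (Filter.Eventually.of_forall hpt))
  rw [← Real.norm_eq_abs]
  refine hfin.trans ?_
  rw [integral_const_mul]
  have hc : 0 ≤ 1 / 2 * Lam * Cf * h ^ (1 - s) := by positivity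
  calc (1 / 2 * Lam * Cf * h ^ (1 - s)) * ∫ w in ann d h ρ, ‖w‖ ^ (1 + s) * kw d s w
      ≤ (1 / 2 * Lam * Cf * h ^ (1 - s)) * I0 := mul_le_mul_of_nonneg_left hle hc
    _ = 1 / 2 * Lam * I0 * Cf * h ^ (1 - s) := by ring

end KD.II.D1
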